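import Pool.Agent.H33.OPArith

set_option autoImplicit false

/-!
# Assembly of the shape theorem from its step

`Bad j a b` : the two-species space with `a` letters of degree `d`, `b` letters of degree `d - 1`
and coefficients of degree `2 d - j` is not contained in the subspace for the bound `t - j`.
`hrow` : extraction of one row (`q` variables of non-zero weight; the last clause needs the
generation condition `a + b - q ≤ (2 d - j) - 1`); `hend` : no letters left.
-/

namespace H33.OPC

theorem chain (d s i : ℕ) (hd : 2 ≤ d) (hs : 2 ≤ s) (hsi : s + i + 3 ≤ 3 * d)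
    (Bad : ℕ → ℕ → ℕ → Prop)
    (hrow : ∀ j a b : ℕ, j ≤ d → Bad j a b → 0 < a + b → ∃ q : ℕ, 2 ≤ q ∧
      ((d : ℤ) - 1) * (a + b) + a + 2 * d - j ≤ q * (6 * d - 6 - 2 * s - i - j) ∧
      (a + b + j + 1 ≤ 2 * d + q → ∃ u v : ℕ, u + v + 1 = q ∧ u ≤ a ∧ v ≤ b ∧
        Bad (j + 1) (a - u) (b - v)))
    (hend : ∀ j a b : ℕ, Bad j a b → a + b = 0 → d < j) : ¬ Bad 0 s i := by
  intro h0
  -- one step
  have step : ∀ j a b : ℕ, j ≤ d → Bad j a b → (1 ≤ j → a + b + j ≤ 2 * d + 1) →
      (j = 0 → a = s ∧ b = i) → ∃ q a' b' : ℕ, 2 ≤ q ∧ a' + b' + q = a + b + 1 ∧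
      Bad (j + 1) a' b' ∧ a' + b' + (j + 1) ≤ 2 * d + 1 ∧
      ((d : ℤ) - 1) * (a + b) + a + 2 * d - j ≤ q * (6 * d - 6 - 2 * s - i - j) := by
    intro j a b hj hB hgen hz
    have hpos : 0 < a + b := by
      rcases Nat.eq_zero_or_pos (a + b) with h | h
      · exact absurd (hend j a b hB h) (by omega)
      · exact h
    obtain ⟨q, hq, hin, hex⟩ := hrow j a b hj hB hpos
    have hg : a + b + j + 1 ≤ 2 * d + q := by
      rcases Nat.eq_zero_or_pos j with h | h
      · obtain ⟨rfl, rfl⟩ := hz h
        subst h
        have h1 := H33.OPA.gen_first d a b (q - 1) (by exact_mod_cast hd) (by exact_mod_cast hs)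
          (Int.natCast_nonneg b) (by
            have : (2 : ℤ) ≤ q := by exact_mod_cast hq
            linarith) (by exact_mod_cast hsi) (by
            push_cast at hin
            have e1 : ((q : ℤ) - 1 + 1) * (6 * d - 6 - 2 * a - b)
              = q * (6 * d - 6 - 2 * a - b - 0) := by ring
            rw [e1]
            linarith)
        omega
      · have := hgen h
        omega
    obtain ⟨u, v, huv, hu, hv, hB'⟩ := hex hg
    refine ⟨q, a - u, b - v, hq, by omega, hB', ?_, hin⟩
    rcases Nat.eq_zero_or_pos j with h | h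
    · subst h
      omega
    · have := hgen h
      omega
  -- sequences
  have key : ∀ J : ℕ, J ≤ d + 1 → ∃ (n : ℕ → ℤ) (a b : ℕ), n 0 = s + i ∧ n J = a + b ∧
      Bad J a b ∧ (1 ≤ J → a + b + J ≤ 2 * d + 1) ∧ (J = 0 → a = s ∧ b = i) ∧
      (∀ j : ℕ, j ≤ J → 0 ≤ n j) ∧ (∀ j : ℕ, j < J → n (j + 1) + 1 ≤ n j) ∧
      (0 < J → ((d : ℤ) - 1) * n 0 + 2 * d + s ≤ (n 0 - n 1 + 1) * (6 * d - 6 - 2 * s - i)) ∧
      (∀ j : ℕ, 1 ≤ j → j < J → ((d : ℤ) - 1) * n j + 2 * d - j ≤
        (n j - n (j + 1) + 1) * (6 * d - 6 - 2 * s - i - j)) := by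
    intro J
    induction J with
    | zero =>
      intro _
      refine ⟨fun _ => s + i, s, i, rfl, rfl, h0, by omega, by simp, ?_, by simp, by simp,
        by simp⟩
      intro j _
      positivity
    | succ J ih =>
      intro hJ
      obtain ⟨n, a, b, hn0, hnJ, hB, hg, hz, hnn, hdec, hf, hr⟩ := ih (by omega)
      obtain ⟨q, a', b', hq, hab, hB', hg', hin⟩ := step J a b (by omega) hB hg hz
      have hq' : (2 : ℤ) ≤ q := by exact_mod_cast hq
      have hab' : (a' : ℤ) + b' + q = a + b + 1 := by exact_mod_cast hab
      refine ⟨Function.update n (J + 1) (a' + b'), a', b', ?_, ?_, hB', fun _ => hg', by omega,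
        ?_, ?_, ?_, ?_⟩
      · rw [Function.update_of_ne (by omega)]; exact hn0
      · rw [Function.update_self]
      · intro j hj
        rcases Nat.lt_or_ge j (J + 1) with h | h
        · rw [Function.update_of_ne (by omega)]
          exact hnn j (by omega)
        · obtain rfl : j = J + 1 := by omega
          rw [Function.update_self]
          positivity
      · intro j hj
        rcases Nat.lt_or_ge j J with h | h
        · rw [Function.update_of_ne (by omega), Function.update_of_ne (by omega)]
          exact hdec j h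
        · obtain rfl : j = J := by omega
          rw [Function.update_self, Function.update_of_ne (by omega), hnJ]
          linarith
      · intro _
        rcases Nat.eq_zero_or_pos J with h | h
        · subst h
          obtain ⟨rfl, rfl⟩ := hz rfl
          rw [Function.update_of_ne (by omega : (0 : ℕ) ≠ 0 + 1), Function.update_self, hn0]
          have e1 : ((a : ℤ) + b - (a' + b') + 1) = q := by linarith
          rw [e1]
          push_cast at hin
          linarith
        · have e0 : (0 : ℕ) ≠ J + 1 := by omega
          have e1 : (1 : ℕ) ≠ J + 1 := by omega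
          rw [Function.update_of_ne e0, Function.update_of_ne e1]
          exact hf h
      · intro j hj1 hj
        rcases Nat.lt_or_ge j J with h | h
        · rw [Function.update_of_ne (by omega), Function.update_of_ne (by omega)]
          exact hr j hj1 h
        · obtain rfl : j = J := by omega
          rw [Function.update_self, Function.update_of_ne (by omega), hnJ]
          have e1 : ((a : ℤ) + b - (a' + b') + 1) = q := by linarith
          rw [e1]
          have : (0 : ℤ) ≤ a := Int.natCast_nonneg a
          linarith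
  obtain ⟨n, a, b, hn0, _, _, _, _, hnn, hdec, hf, hr⟩ := key (d + 1) le_rfl
  refine H33.OPA.no_rows d s i (by exact_mod_cast hd) (by exact_mod_cast hs)
    (by exact_mod_cast hsi) n hn0 ?_ ?_ (hf (by omega)) ?_
  · intro j hj
    exact hnn j (by exact_mod_cast hj)
  · intro j hj
    exact hdec j (by
      have : j ≤ d := by exact_mod_cast hj
      omega)
  · intro j hj1 hj
    exact hr j hj1 (by
      have : j ≤ d := by exact_mod_cast hj
      omega)

end H33.OPC
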