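import Mathlib

set_option autoImplicit false

/-!
# The Capelli type lemma, abstract form

`CapD D j` : operators `R x = x ∂/∂τ`, `T y = τ ∂/∂y` (`τ` one odd letter) on a space `XF` which
contains `F` via `j`, with `R x T y + T y R x = H x y` and the commutators of `H` with `T` and `R`.
`RR_TT` : on a vector `κ` which is extremal modulo `W` one has
`R_Z T_Z j κ = (∏ (w_z + …)) j κ` modulo `j W`.  (Extracted from `H27.OP.Cap`.)
-/

namespace H33.OPC

variable {k σ F XF : Type*} [Field k] [AddCommGroup F] [Module k F] [AddCommGroup XF]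
  [Module k XF]

/-- operators for one odd letter -/
structure CapD [DecidableEq σ] (D : σ → σ → Module.End k F) (j : F →ₗ[k] XF) where
  R : σ → Module.End k XF
  T : σ → Module.End k XF
  H : σ → σ → Module.End k XF
  RT : ∀ x y, R x * T y + T y * R x = H x y
  HT : ∀ x y z, H x y * T z
    = T z * H x y + (if x = y then T z else 0) - (if x = z then T y else 0)
  Rj : ∀ x w, R x (j w) = 0
  Hj : ∀ x y w, H x y (j w) = j (D x y w)

variable [DecidableEq σ] {D : σ → σ → Module.End k F} {j : F →ₗ[k] XF} (S : CapD D j)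

namespace CapD

/-- `T_{z_1} ⋯ T_{z_r}` -/
noncomputable def Tl (S : CapD D j) : List σ → Module.End k XF
  | [] => 1
  | y :: Y => S.T y * Tl S Y

/-- `R_{z_r} ⋯ R_{z_1}` -/
noncomputable def Rl (S : CapD D j) : List σ → Module.End k XF
  | [] => 1
  | y :: Y => Rl S Y * S.R y

lemma H_TT_ne (x y : σ) (hxy : x ≠ y) (Z : List σ) (hZ : x ∉ Z) :
    S.H x y * S.Tl Z = S.Tl Z * S.H x y := by
  induction Z with
  | nil => simp [Tl]
  | cons z Z ih =>
    rw [List.mem_cons, not_or] at hZ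
    rw [Tl, ← mul_assoc, S.HT, if_neg hxy, if_neg hZ.1, add_zero, sub_zero, mul_assoc,
      ih hZ.2, mul_assoc]

lemma H_TT_self (x : σ) (Z : List σ) (hZ : x ∉ Z) :
    S.H x x * S.Tl Z = S.Tl Z * S.H x x + (Z.length : k) • S.Tl Z := by
  induction Z with
  | nil => simp [Tl]
  | cons z Z ih =>
    rw [List.mem_cons, not_or] at hZ
    rw [Tl, ← mul_assoc, S.HT, if_pos rfl, if_neg hZ.1, sub_zero, add_mul, mul_assoc,
      ih hZ.2, mul_add, mul_assoc, List.length_cons, Nat.cast_succ, add_smul, one_smul,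
      mul_smul_comm]
    abel

/-- span of `T_{z_1} ⋯ T_{z_r} j w`, `w ∈ W` -/
def Wr (S : CapD D j) (W : Submodule k F) (r : ℕ) : Submodule k XF :=
  Submodule.span k {ξ | ∃ Z : List σ, Z.length = r ∧ ∃ w ∈ W, ξ = S.Tl Z (j w)}

lemma Wr_zero (W : Submodule k F) : S.Wr W 0 = W.map j := by
  unfold Wr
  apply le_antisymm
  · rw [Submodule.span_le]
    rintro ξ ⟨Z, hZ, w, hw, rfl⟩
    have : Z = [] := List.length_eq_zero_iff.mp hZ
    subst this
    exact ⟨w, hw, by simp [Tl]⟩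
  · rintro _ ⟨w, hw, rfl⟩
    exact Submodule.subset_span ⟨[], rfl, w, hw, by simp [Tl]⟩

lemma Wr_T {W : Submodule k F} {r : ℕ} (z : σ) {ξ : XF} (h : ξ ∈ S.Wr W r) :
    S.T z ξ ∈ S.Wr W (r + 1) := by
  have h1 : S.Wr W r ≤ (S.Wr W (r + 1)).comap (S.T z) := by
    unfold Wr
    rw [Submodule.span_le]
    rintro ξ ⟨Z, hZ, w, hw, rfl⟩
    exact Submodule.subset_span ⟨z :: Z, by simp [hZ], w, hw, by rw [Tl, Module.End.mul_apply]⟩
  exact h1 h

lemma Wr_H {W : Submodule k F} (hW : ∀ x y : σ, ∀ w ∈ W, D x y w ∈ W) {r : ℕ} (x y : σ) {ξ : XF}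
    (h : ξ ∈ S.Wr W r) : S.H x y ξ ∈ S.Wr W r := by
  have h1 : ∀ (Z : List σ) (w : F), w ∈ W → S.H x y (S.Tl Z (j w)) ∈ S.Wr W Z.length := by
    intro Z w hw
    induction Z with
    | nil =>
      rw [Tl, Module.End.one_apply, S.Hj]
      exact Submodule.subset_span ⟨[], rfl, _, hW x y w hw, by simp [Tl]⟩
    | cons z Z ih =>
      have e1 := congrArg (fun f : Module.End k XF => f (S.Tl Z (j w))) (S.HT x y z)
      simp only [Module.End.mul_apply, LinearMap.add_apply, LinearMap.sub_apply] at e1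
      rw [Tl, Module.End.mul_apply, e1]
      have hm : S.Tl Z (j w) ∈ S.Wr W Z.length := Submodule.subset_span ⟨Z, rfl, w, hw, rfl⟩
      refine sub_mem (add_mem (S.Wr_T z ih) ?_) ?_
      · split_ifs
        · exact S.Wr_T z hm
        · exact zero_mem _
      · split_ifs
        · exact S.Wr_T y hm
        · exact zero_mem _
  have h2 : S.Wr W r ≤ (S.Wr W r).comap (S.H x y) := by
    nth_rewrite 1 [Wr]
    rw [Submodule.span_le]
    rintro ξ ⟨Z, rfl, w, hw, rfl⟩
    exact h1 Z w hw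
  exact h2 h

lemma Wr_R {W : Submodule k F} (hW : ∀ x y : σ, ∀ w ∈ W, D x y w ∈ W) {r : ℕ} (x : σ) {ξ : XF}
    (h : ξ ∈ S.Wr W r) : S.R x ξ ∈ S.Wr W (r - 1) := by
  have h1 : ∀ (Z : List σ) (w : F), w ∈ W → S.R x (S.Tl Z (j w)) ∈ S.Wr W (Z.length - 1) := by
    intro Z w hw
    induction Z with
    | nil =>
      rw [Tl, Module.End.one_apply, S.Rj]
      exact zero_mem _
    | cons z Z ih =>
      have e1 := congrArg (fun f : Module.End k XF => f (S.Tl Z (j w))) (S.RT x z)
      simp only [Module.End.mul_apply, LinearMap.add_apply] at e1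
      rw [Tl, Module.End.mul_apply, eq_sub_of_add_eq e1, List.length_cons, Nat.add_sub_cancel]
      have hm : S.Tl Z (j w) ∈ S.Wr W Z.length := Submodule.subset_span ⟨Z, rfl, w, hw, rfl⟩
      refine sub_mem (S.Wr_H hW x z hm) ?_
      rcases Z with _ | ⟨z', Z⟩
      · rw [Tl, Module.End.one_apply, S.Rj, map_zero]
        exact zero_mem _
      · have := S.Wr_T z ih
        rwa [List.length_cons, Nat.add_sub_cancel] at this
  have h2 : S.Wr W r ≤ (S.Wr W (r - 1)).comap (S.R x) := by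
    nth_rewrite 1 [Wr]
    rw [Submodule.span_le]
    rintro ξ ⟨Z, rfl, w, hw, rfl⟩
    exact h1 Z w hw
  exact h2 h

lemma Wr_RR {W : Submodule k F} (hW : ∀ x y : σ, ∀ w ∈ W, D x y w ∈ W) (Z : List σ) :
    ∀ {ξ : XF}, ξ ∈ S.Wr W Z.length → S.Rl Z ξ ∈ S.Wr W 0 := by
  induction Z with
  | nil => intro ξ h; simpa [Rl] using h
  | cons z Z ih =>
    intro ξ h
    rw [Rl, Module.End.mul_apply]
    refine ih ?_
    have := S.Wr_R hW z h
    rwa [List.length_cons, Nat.add_sub_cancel] at this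

lemma R_TT {W : Submodule k F} {κ : F} (x : σ) (Z : List σ) (hx : x ∉ Z)
    (hZ : ∀ z ∈ Z, D x z κ ∈ W) : S.R x (S.Tl Z (j κ)) ∈ S.Wr W (Z.length - 1) := by
  induction Z with
  | nil =>
    rw [Tl, Module.End.one_apply, S.Rj]
    exact zero_mem _
  | cons z Z ih =>
    rw [List.mem_cons, not_or] at hx
    have e1 := congrArg (fun f : Module.End k XF => f (S.Tl Z (j κ))) (S.RT x z)
    simp only [Module.End.mul_apply, LinearMap.add_apply] at e1
    rw [Tl, Module.End.mul_apply, eq_sub_of_add_eq e1, List.length_cons, Nat.add_sub_cancel]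
    have ih' := ih hx.2 fun z' hz' => hZ z' (List.mem_cons_of_mem _ hz')
    refine sub_mem ?_ ?_
    · have e2 := congrArg (fun f : Module.End k XF => f (j κ)) (S.H_TT_ne x z hx.1 Z hx.2)
      simp only [Module.End.mul_apply] at e2
      rw [e2, S.Hj]
      exact Submodule.subset_span ⟨Z, rfl, _, hZ z List.mem_cons_self, rfl⟩
    · rcases Z with _ | ⟨z', Z⟩
      · rw [Tl, Module.End.one_apply, S.Rj, map_zero]
        exact zero_mem _
      · have := S.Wr_T z ih'
        rwa [List.length_cons, Nat.add_sub_cancel] at this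

/-- the product `∏ (w_i + s - i)` -/
def cpr (w : σ → ℕ) : List σ → ℕ
  | [] => 1
  | y :: Z => (w y + Z.length) * cpr w Z

omit [DecidableEq σ] in
lemma cpr_ne (w : σ → ℕ) (Z : List σ) (h : ∀ z ∈ Z, w z ≠ 0) : cpr w Z ≠ 0 := by
  induction Z with
  | nil => simp [cpr]
  | cons z Z ih =>
    have := h z List.mem_cons_self
    rw [cpr]
    refine Nat.mul_ne_zero (by omega) (ih fun z' hz' => h z' (List.mem_cons_of_mem _ hz'))

/-- **Capelli type lemma**: `R_Z T_Z j κ = const · j κ` modulo `j W`. -/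
theorem RR_TT {W : Submodule k F} (hW : ∀ x y : σ, ∀ w ∈ W, D x y w ∈ W) {κ : F} {w : σ → ℕ}
    (Z : List σ) (hw : ∀ x ∈ Z, D x x κ = (w x : k) • κ) (hZ : Z.Nodup)
    (hp : Z.Pairwise fun x y => D x y κ ∈ W) :
    S.Rl Z (S.Tl Z (j κ)) - (cpr w Z : k) • j κ ∈ W.map j := by
  rw [← S.Wr_zero W]
  induction Z with
  | nil =>
    simp only [Rl, Tl, Module.End.one_apply, cpr, Nat.cast_one, one_smul, sub_self]
    exact zero_mem _
  | cons z Z ih =>
    rw [List.nodup_cons] at hZ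
    rw [List.pairwise_cons] at hp
    have ih' := ih (fun x hx => hw x (List.mem_cons_of_mem _ hx)) hZ.2 hp.2
    have e1 := congrArg (fun f : Module.End k XF => f (S.Tl Z (j κ))) (S.RT z z)
    simp only [Module.End.mul_apply, LinearMap.add_apply] at e1
    have e2 := congrArg (fun f : Module.End k XF => f (j κ)) (S.H_TT_self z Z hZ.1)
    simp only [Module.End.mul_apply, LinearMap.add_apply, LinearMap.smul_apply] at e2
    have e3 : S.T z (S.R z (S.Tl Z (j κ))) ∈ S.Wr W Z.length := by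
      rcases Z with _ | ⟨z', Z⟩
      · rw [Tl, Module.End.one_apply, S.Rj, map_zero]
        exact zero_mem _
      · have := S.Wr_T z (S.R_TT z (z' :: Z) hZ.1 hp.1)
        rwa [List.length_cons, Nat.add_sub_cancel] at this
    have e4 := S.Wr_RR hW Z e3
    rw [Rl, Tl, Module.End.mul_apply, Module.End.mul_apply, eq_sub_of_add_eq e1, map_sub, e2,
      S.Hj, hw z List.mem_cons_self, map_smul, map_smul, ← add_smul, map_smul, cpr, Nat.cast_mul,
      Nat.cast_add, mul_smul]
    have e5 := Submodule.smul_mem (S.Wr W 0) ((w z : k) + (Z.length : k)) ih'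
    rw [smul_sub] at e5
    have e6 := sub_mem e5 e4
    convert e6 using 1
    abel

/-- if `j` has a left inverse `pr`: `κ` is a multiple of `pr (R_Z T_Z j κ)` modulo `W` -/
theorem capelli [CharZero k] {W : Submodule k F} (hW : ∀ x y : σ, ∀ w ∈ W, D x y w ∈ W)
    (pr : XF →ₗ[k] F) (hpr : ∀ v, pr (j v) = v) {κ : F} {w : σ → ℕ}
    (Z : List σ) (hw : ∀ x ∈ Z, D x x κ = (w x : k) • κ) (hZ : Z.Nodup)
    (hp : Z.Pairwise fun x y => D x y κ ∈ W) (hne : ∀ z ∈ Z, w z ≠ 0)
    (h : pr (S.Rl Z (S.Tl Z (j κ))) ∈ W) : κ ∈ W := by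
  obtain ⟨v, hv, hv'⟩ := S.RR_TT hW Z hw hZ hp
  have hc : (cpr w Z : k) ≠ 0 := Nat.cast_ne_zero.mpr (cpr_ne w Z hne)
  have h1 : (cpr w Z : k) • κ = pr (S.Rl Z (S.Tl Z (j κ))) - v := by
    have := congrArg pr hv'
    rw [hpr, map_sub, map_smul, hpr] at this
    rw [this]; abel
  have h2 : (cpr w Z : k) • κ ∈ W := by rw [h1]; exact sub_mem h hv
  have h3 := W.smul_mem (cpr w Z : k)⁻¹ h2
  rwa [smul_smul, inv_mul_cancel₀ hc, one_smul] at h3

end CapD

end H33.OPC
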